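import Pool.Agent.helper51.RMX.Spec
import Pool.Agent.helper9.RB.IDM
import Pool.Agent.helper2.RB.DVE

set_option autoImplicit false

/-! Row rmx:IDW (helper28): the two indices agree on the new part. -/

namespace Pool.Agent.RMX

open Pool.Agent.RB NumberField IsDedekindDomain Module
open scoped nonZeroDivisors Real Classical IsMulCommutative

theorem IDW_fib {G H : Type} [Group G] [Group H] [Fintype G] [Fintype H] (φ : G →* H)
    (hφ : Function.Surjective φ) (Δ : Subgroup H) (g : H → ℤ) :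
    ∑ b : Δ.comap φ, g (φ b) = (Nat.card φ.ker : ℤ) * ∑ δ : Δ, g δ := by
  have h1 : ∑ b : Δ.comap φ, g (φ b) = ∑ x ∈ Finset.univ.filter (fun x : G => φ x ∈ Δ), g (φ x) := by
    rw [← Finset.sum_subtype (Finset.univ.filter (fun x : G => φ x ∈ Δ)) (p := fun x => x ∈ Δ.comap φ)
      (fun x => by simp) (fun x => g (φ x))]
  have h2 : ∑ δ : Δ, g δ = ∑ h ∈ Finset.univ.filter (fun h : H => h ∈ Δ), g h := by
    rw [← Finset.sum_subtype (Finset.univ.filter (fun h : H => h ∈ Δ)) (p := fun x => x ∈ Δ)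
      (fun x => by simp) (fun x => g x)]
  rw [h1, h2, ← Finset.sum_fiberwise_of_maps_to (s := Finset.univ.filter (fun x : G => φ x ∈ Δ))
    (t := Finset.univ.filter (fun h : H => h ∈ Δ)) (g := φ) (by simp), Finset.mul_sum]
  refine Finset.sum_congr rfl fun h hh => ?_
  have h3 : ∀ x ∈ (Finset.univ.filter (fun x : G => φ x ∈ Δ)).filter (fun x => φ x = h), g (φ x) = g h := by
    intro x hx
    rw [Finset.mem_filter] at hx
    rw [hx.2]
  rw [Finset.sum_congr rfl h3, Finset.sum_const, nsmul_eq_mul]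
  congr 1
  have h4 : (Finset.univ.filter (fun x : G => φ x ∈ Δ)).filter (fun x => φ x = h) =
      Finset.univ.filter (fun x : G => φ x = h) := by
    ext x
    simp only [Finset.mem_filter, Finset.mem_univ, true_and]
    refine ⟨fun h5 => h5.2, fun h5 => ⟨?_, h5⟩⟩
    rw [h5]; simpa using hh
  rw [h4, MonoidHom.card_fiber_eq_of_mem_range φ (x := h) (y := 1) (hφ h) (hφ 1)]
  norm_cast
  rw [Nat.card_eq_fintype_card, Fintype.card_subtype]
  congr 1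
  ext x
  simp only [Finset.mem_filter, Finset.mem_univ, true_and, MonoidHom.mem_ker]

/-- the norm over `Δ` on the group ring side -/
theorem IDW_norm (hNDV : NDV_stmt) {F K H : Type} [Field F] [NumberField F] [Field K] [NumberField K] [Field H]
    [NumberField H] [Algebra F K] [Algebra K H] [Algebra F H] [IsScalarTower F K H]
    [IsAbelianGalois F K] [IsAbelianGalois F H] (w : HOS H) (D : Dv K) (Δ : Subgroup (K ≃ₐ[F] K)) :
    (∑ᶠ b : Δ.comap (AlgEquiv.restrictNormalHom K : (H ≃ₐ[F] H) →* (K ≃ₐ[F] K)),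
      MonoidAlgebra.single (b : H ≃ₐ[F] H) (1 : ℤ)) * bD F w D =
    (Nat.card (AlgEquiv.restrictNormalHom K : (H ≃ₐ[F] H) →* (K ≃ₐ[F] K)).ker : ℤ) • bD F w (Nd Δ D) := by
  obtain ⟨hN, -⟩ := hNDV F K Δ
  set φ : (H ≃ₐ[F] H) →* (K ≃ₐ[F] K) := AlgEquiv.restrictNormalHom K with hφ
  have hsurj : Function.Surjective φ := AlgEquiv.restrictNormalHom_surjective (F := F) (K₁ := K) H
  rw [finsum_eq_sum_of_fintype, Finset.sum_mul]
  ext τ
  have h1 := IDW_fib φ hsurj Δ (fun κ => D (act ((κ * φ τ : K ≃ₐ[F] K) : K ≃+* K) (w.under (𝓞 K))))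
  have h2 : ((∑ b : Δ.comap φ, MonoidAlgebra.single (b : H ≃ₐ[F] H) (1 : ℤ) * bD F w D)).coeff τ =
      ∑ b : Δ.comap φ, D (act ((φ (b : H ≃ₐ[F] H) * φ τ : K ≃ₐ[F] K) : K ≃+* K) (w.under (𝓞 K))) := by
    rw [MonoidAlgebra.coeff_sum, Finsupp.finsetSum_apply]
    rw [← Equiv.sum_comp (Equiv.inv (Δ.comap φ))
      (fun b : Δ.comap φ => D (act ((φ (b : H ≃ₐ[F] H) * φ τ : K ≃ₐ[F] K) : K ≃+* K) (w.under (𝓞 K))))]
    refine Finset.sum_congr rfl fun b _ => ?_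
    rw [DVE_mul_coeff, DVE_coeff, ← hφ, map_mul]
    rfl
  rw [h2, h1, MonoidAlgebra.coeff_smul, Finsupp.smul_apply, DVE_coeff, hN, smul_eq_mul, ← hφ]
  have h4 : ∀ δ : Δ, D (act (((δ : K ≃ₐ[F] K) * φ τ : K ≃ₐ[F] K) : K ≃+* K) (w.under (𝓞 K))) =
      D (act ((δ : K ≃ₐ[F] K) : K ≃+* K) (act ((φ τ : K ≃ₐ[F] K) : K ≃+* K) (w.under (𝓞 K)))) := by
    intro δ
    have h3 := DVE_A_mul ORD (δ : K ≃ₐ[F] K) (φ τ) (w.under (𝓞 K))
    unfold DVE_A at h3
    rw [h3]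
  rw [Finset.sum_congr rfl fun δ _ => h4 δ]

theorem IDW (hEPX : EPX_stmt) (hNDV : NDV_stmt) : IDW_stmt := by
  intro F K H _ _ _ _ _ _ _ _ _ _ _ _ r w hw hinj c hc T Δ hMD N hN
  obtain ⟨h1, h2, h3⟩ := r_dve F K H r w hw hinj c hc
  obtain ⟨hfin, -⟩ := ORD K
  obtain ⟨hN1, -, -, hN4⟩ := hNDV F K Δ
  set φ : (H ≃ₐ[F] H) →* (K ≃ₐ[F] K) := AlgEquiv.restrictNormalHom K with hφ
  have hle : φ.ker ≤ Δ.comap φ := by
    intro x hx
    rw [Subgroup.mem_comap, MonoidHom.mem_ker.1 hx]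
    exact one_mem _
  have hEX : ∀ y : MonoidAlgebra ℤ (H ≃ₐ[F] H), y ∈ ElX (PsN φ.ker (Δ.comap φ) c) ↔ y ∈ Elat φ.ker c ∧
      (∑ᶠ b : Δ.comap φ, MonoidAlgebra.single (b : H ≃ₐ[F] H) (1 : ℤ)) * y = 0 :=
    (hEPX (H ≃ₐ[F] H) φ.ker (Δ.comap φ) c hc hle).2
  have hcard : (Nat.card φ.ker : ℤ) ≠ 0 := by exact_mod_cast Nat.card_pos.ne'
  -- the condition on the norm
  have hNd : ∀ D : Dv K, Nd Δ D = 0 → ∀ j,
      (∑ᶠ b : Δ.comap φ, MonoidAlgebra.single (b : H ≃ₐ[F] H) (1 : ℤ)) * bD F (w j) D = 0 := by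
    intro D hD j
    rw [IDW_norm hNDV, hD]
    have : bD F (w j) (0 : Dv K) = 0 := by
      unfold bD
      refine Finset.sum_eq_zero fun τ _ => ?_
      rw [Finsupp.zero_apply, MonoidAlgebra.single_zero]
    rw [this, smul_zero]
  have hNd' : ∀ D ∈ DV ((φ c : K ≃ₐ[F] K) : K ≃+* K) {P : HOS K | ∃ j, P.under (𝓞 F) = (w j).under (𝓞 F)},
      (∀ j, (∑ᶠ b : Δ.comap φ, MonoidAlgebra.single (b : H ≃ₐ[F] H) (1 : ℤ)) * bD F (w j) D = 0) →
      Nd Δ D = 0 := by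
    intro D hD h
    have hV : Nd Δ D ∈ DV ((φ c : K ≃ₐ[F] K) : K ≃+* K)
        {P : HOS K | ∃ j, P.under (𝓞 F) = (w j).under (𝓞 F)} := by
      have := (hN4 (φ c) {v : HOS F | ∃ j, v = (w j).under (𝓞 F)} ∅).1 D hD
      exact this
    refine h3 _ hV fun j => ?_
    have h5 := h j
    rw [IDW_norm hNDV] at h5
    rcases smul_eq_zero.1 h5 with h6 | h6
    · exact absurd h6 hcard
    · exact h6
  let Φ : Dv K →+ (Fin r → MonoidAlgebra ℤ (H ≃ₐ[F] H)) :=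
    AddMonoidHom.mk' (fun D j => bD F (w j) D) (fun D D' => by
      funext j
      exact IDM_bD_add (w j) D D')
  have hΦ : ∀ D j, Φ D j = bD F (w j) D := fun D j => rfl
  have e0 := AddSubgroup.inf_relIndex_right (dM ((φ c : K ≃ₐ[F] K) : K ≃+* K)
    {P : HOS K | ∃ j, P.under (𝓞 F) = (w j).under (𝓞 F)} T) (DV ((φ c : K ≃ₐ[F] K) : K ≃+* K)
    {P : HOS K | ∃ j, P.under (𝓞 F) = (w j).under (𝓞 F)} ⊓ (Nd Δ).ker)
  rw [← e0]
  refine IDM_rel Φ _ _ _ _ inf_le_right ?_ ?_ ?_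
  · intro D hD h0
    exact h3 D hD.1 fun j => congrFun h0 j
  · ext y
    rw [hN]
    constructor
    · rintro ⟨D, ⟨⟨x, hx, hDx⟩, hDV, hDN⟩, rfl⟩
      refine ⟨x, hx, ?_, fun j => r_bor F K H (w j) (hw j) D x x.ne_zero hDx⟩
      intro P
      have h5 := hN1 D P
      have h6 : Nd Δ D = 0 := hDN
      rw [h6, Finsupp.zero_apply] at h5
      rw [h5]
      exact Finset.sum_congr rfl fun δ _ => (hDx _).symm
    · rintro ⟨x, hx, hxN, hy⟩
      let D : Dv K := Finsupp.ofSupportFinite (fun P => ord P (x : K)) (hfin x x.ne_zero)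
      have hD : ∀ P, D P = ord P (x : K) := fun P => rfl
      have hDM : D ∈ dM ((φ c : K ≃ₐ[F] K) : K ≃+* K)
          {P : HOS K | ∃ j, P.under (𝓞 F) = (w j).under (𝓞 F)} T := ⟨x, hx, hD⟩
      refine ⟨D, ⟨hDM, hMD hDM, ?_⟩, ?_⟩
      · show Nd Δ D = 0
        ext P
        rw [hN1, Finsupp.zero_apply, ← hxN P]
        exact Finset.sum_congr rfl fun δ _ => hD _
      · funext j
        rw [hΦ, r_bor F K H (w j) (hw j) D x x.ne_zero hD, hy j]
  · ext y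
    rw [AddSubgroup.mem_pi]
    constructor
    · rintro ⟨D, ⟨hD, hDN⟩, rfl⟩ j _
      exact (hEX _).2 ⟨h1 D hD j, hNd D hDN j⟩
    · intro hy
      obtain ⟨D, hD, hDy⟩ := h2 y (fun j => ((hEX _).1 (hy j (Set.mem_univ j))).1)
      refine ⟨D, ⟨hD, hNd' D hD fun j => ?_⟩, funext hDy⟩
      rw [hDy j]
      exact ((hEX _).1 (hy j (Set.mem_univ j))).2

end Pool.Agent.RMX
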